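import Mathlib
import Pool.Agent.V11172.DLHist

namespace Pool.Agent.Results.MP_f5c34b_co.ExtremalTrees

open PowerSeries Pool.Agent.V11172.DLHist

lemma nn_half {F : PowerSeries ℝ} (h : Nn (F + F)) : Nn F := fun n => by
  have := h n
  rw [map_add] at this
  linarith

/-- moving a small subtree from a big sibling to a smaller one decreases the series -/
lemma rotation {x w y b1 b2 L R : PowerSeries ℝ} (hx : Nn x) (hw : Nn w) (hy : Nn y)
    (hxw : Nn (x - w))
    (h1 : IsB b1 (x * y + x + y)) (h2 : IsB b2 (y * w + y + w))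
    (hL : IsB L (x * b2 + x + b2)) (hR : IsB R (b1 * w + b1 + w)) : Nn (R - L) := by
  have n1 : Nn b1 := h1.nn (((hx.mul hy).add hx).add hy)
  have n2 : Nn b2 := h2.nn (((hy.mul hw).add hy).add hw)
  have nL : Nn L := hL.nn (((hx.mul n2).add hx).add n2)
  have nR : Nn R := hR.nn (((n1.mul hw).add n1).add hw)
  apply hL.mono hR nL nR
  have hc : constantCoeff (b1 + b2) = 0 := by rw [map_add, h1.1, h2.1, add_zero]
  apply key1 (N := (x - w) * (b1 + b2 + b1 * b2)) (hxw.mul ((n1.add n2).add (n1.mul n2)))
    (n1.add n2) hc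
  have e1 := h1.2
  have e2 := h2.2
  linear_combination (1 + w) * e1 - (1 + x) * e2

/-- the exchange inequality -/
lemma exchange {x x' y y' a b a' b' : PowerSeries ℝ} (hx : Nn x) (hy : Nn y)
    (hxx : Nn (x' - x)) (hyy : Nn (y' - y))
    (ha : IsB a (x' * y' + x' + y')) (hb : IsB b (x * y + x + y))
    (ha' : IsB a' (x' * y + x' + y)) (hb' : IsB b' (x * y' + x + y')) :
    Nn ((a * b + a + b) - (a' * b' + a' + b')) := by
  have hx' : Nn x' := by
    have : x' = (x' - x) + x := by ring
    rw [this]; exact hxx.add hx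
  have hy' : Nn y' := by
    have : y' = (y' - y) + y := by ring
    rw [this]; exact hyy.add hy
  have sp := ((hx'.mul hy').add hx').add hy'
  have sq := ((hx.mul hy).add hx).add hy
  have sp' := ((hx'.mul hy).add hx').add hy
  have sq' := ((hx.mul hy').add hx).add hy'
  have na := ha.nn sp
  have nb := hb.nn sq
  have na' := ha'.nn sp'
  have nb' := hb'.nn sq'
  have m1 : Nn (a - a') := by
    apply ha'.mono ha na' na
    have : x' * y' + x' + y' - (x' * y + x' + y) = x' * (y' - y) + (y' - y) := by ring
    rw [this]; exact (hx'.mul hyy).add hyy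
  have m2 : Nn (a - b') := by
    apply hb'.mono ha nb' na
    have : x' * y' + x' + y' - (x * y' + x + y') = (x' - x) * y' + (x' - x) := by ring
    rw [this]; exact (hxx.mul hy').add hxx
  have m3 : Nn (a' - b) := by
    apply hb.mono ha' nb na'
    have : x' * y + x' + y - (x * y + x + y) = (x' - x) * y + (x' - x) := by ring
    rw [this]; exact (hxx.mul hy).add hxx
  have m4 : Nn (b' - b) := by
    apply hb.mono hb' nb nb'
    have : x * y' + x + y' - (x * y + x + y) = x * (y' - y) + (y' - y) := by ring
    rw [this]; exact (hx.mul hyy).add hyy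
  have ea := ha.2
  have eb := hb.2
  have ea' := ha'.2
  have eb' := hb'.2
  -- the series `T`
  have hT : Nn (a + b + a' + b' - 2 * (a * b + a' * b')) := by
    apply nn_half
    have : a + b + a' + b' - 2 * (a * b + a' * b') + (a + b + a' + b' - 2 * (a * b + a' * b')) =
        ((x' * y' + x' + y') + (x * y + x + y) + (x' * y + x' + y) + (x * y' + x + y')) +
        ((x' * y' + x' + y') + (x * y + x + y) + (x' * y + x' + y) + (x * y' + x + y')) +
        ((a - b') + (a' - b)) ^ 2 + ((a - a') + (b' - b)) ^ 2 := by
      linear_combination 2 * (ea + eb + ea' + eb')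
    rw [this]
    have s4 := ((sp.add sq).add sp').add sq'
    exact ((s4.add s4).add (m2.add m3).sq).add (m1.add m4).sq
  have hT0 : constantCoeff (a + b + a' + b' - 2 * (a * b + a' * b')) = 0 := by
    simp [ha.1, hb.1, ha'.1, hb'.1]
  have hS : Nn (a + b + a' + b') := ((na.add nb).add na').add nb'
  have hS0 : constantCoeff (a + b + a' + b') = 0 := by simp [ha.1, hb.1, ha'.1, hb'.1]
  have hM : Nn (a * b + a' * b') := (na.mul nb).add (na'.mul nb')
  have hg : Nn ((x' - x) * (y' - y)) := hxx.mul hyy
  have h4 : Nn (1 + 1 + 1 + 1 + (a * b + a' * b') + (a * b + a' * b') + (a * b + a' * b') +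
      (a + b + a' + b')) :=
    (((((((nn_one.add nn_one).add nn_one).add nn_one).add hM).add hM).add hM).add hS)
  have hR : (1 + a - a ^ 2) * (1 + b - b ^ 2) = (1 + a' - a' ^ 2) * (1 + b' - b' ^ 2) := by
    have p1 : 1 + a - a ^ 2 = (1 + x') * (1 + y') := by linear_combination ea
    have p2 : 1 + b - b ^ 2 = (1 + x) * (1 + y) := by linear_combination eb
    have p3 : 1 + a' - a' ^ 2 = (1 + x') * (1 + y) := by linear_combination ea'
    have p4 : 1 + b' - b' ^ 2 = (1 + x) * (1 + y') := by linear_combination eb'
    rw [p1, p2, p3, p4]; ring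
  have hgam : (x' - x) * (y' - y) =
      (a - a ^ 2) + (b - b ^ 2) - (a' - a' ^ 2) - (b' - b' ^ 2) := by
    linear_combination ea' + eb' - ea - eb
  have hD1 : Nn (((a * b + a + b) - (a' * b' + a' + b')) * (2 - (a + b + a' + b'))) := by
    apply key1 (hg.mul h4) hT hT0
    linear_combination (-2 * (1 + (a + b + a' + b'))) * hR -
      (4 + 3 * (a * b + a' * b') + (a + b + a' + b')) * hgam
  exact key2 hD1 hS hS0 rfl

lemma arg_mono {x x' y y' : PowerSeries ℝ} (hx : Nn x) (hy' : Nn y')
    (h1 : Nn (x' - x)) (h2 : Nn (y' - y)) : Nn ((x' * y' + x' + y') - (x * y + x + y)) := by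
  have : (x' * y' + x' + y') - (x * y + x + y) =
      (x' - x) * y' + x * (y' - y) + (x' - x) + (y' - y) := by ring
  rw [this]
  exact (((h1.mul hy').add (hx.mul h2)).add h1).add h2

/-! ### Balanced trees -/

/-- the balanced tree with `k` leaves -/
def bt (k : ℕ) : SpeciesTree :=
  if _h : k ≤ 1 then .leaf else .node (bt ((k + 1) / 2)) (bt (k / 2))
termination_by k
decreasing_by all_goals omega

lemma bt_one : bt 1 = .leaf := by rw [bt]; simp

lemma bt_two {k : ℕ} (hk : 2 ≤ k) : bt k = .node (bt ((k + 1) / 2)) (bt (k / 2)) := by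
  rw [bt]
  have : ¬ k ≤ 1 := by omega
  simp [this]

lemma bt_size {k : ℕ} (hk : 1 ≤ k) : (bt k).size = k := by
  induction k using Nat.strong_induction_on with
  | _ k ih =>
    rcases Nat.lt_or_ge k 2 with h | h
    · have : k = 1 := by omega
      subst this; rw [bt_one]; rfl
    · rw [bt_two h, SpeciesTree.size, ih _ (by omega) (by omega), ih _ (by omega) (by omega)]
      omega

lemma bt_balanced {k : ℕ} (hk : 1 ≤ k) : (bt k).Balanced := by
  induction k using Nat.strong_induction_on with
  | _ k ih =>
    rcases Nat.lt_or_ge k 2 with h | h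
    · have : k = 1 := by omega
      subst this; rw [bt_one]; trivial
    · rw [bt_two h]
      refine ⟨ih _ (by omega) (by omega), ih _ (by omega) (by omega), ?_, ?_⟩
      · rw [bt_size (by omega), bt_size (by omega)]; omega
      · rw [bt_size (by omega), bt_size (by omega)]; omega

/-- the series of the balanced tree -/
noncomputable def G (k : ℕ) : PowerSeries ℝ := H (bt k)

lemma nn_G (k : ℕ) : Nn (G k) := nn_H _

lemma G_isB {k : ℕ} (hk : 2 ≤ k) :
    IsB (G k) (G ((k + 1) / 2) * G (k / 2) + G ((k + 1) / 2) + G (k / 2)) := by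
  unfold G
  rw [bt_two hk]
  exact H_node _ _

lemma G_one : G 1 = H .leaf := by unfold G; rw [bt_one]

lemma G_mono : ∀ b a, 1 ≤ a → a ≤ b → Nn (G b - G a) := by
  intro b
  induction b using Nat.strong_induction_on with
  | _ b ih =>
    intro a ha hab
    rcases Nat.lt_or_ge a 2 with h | h
    · have : a = 1 := by omega
      subst this
      rw [G_one]
      exact leaf_le _
    · apply (G_isB h).mono (G_isB (le_trans h hab)) (nn_G _) (nn_G _)
      exact arg_mono (nn_G _) (nn_G _) (ih _ (by omega) _ (by omega) (by omega))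
        (ih _ (by omega) _ (by omega) (by omega))

lemma same_arg {c b y y' : PowerSeries ℝ} (hc : IsB c y) (hb : IsB b y') (nc : Nn c) (nb : Nn b)
    (h : y = y') : Nn (c - b) := by
  subst h
  apply hb.mono hc nb nc
  rw [sub_self]; exact nn_zero

lemma merge : ∀ n a b, a + b = n → 1 ≤ b → b ≤ a → ∀ c,
    IsB c (G a * G b + G a + G b) → Nn (c - G (a + b)) := by
  intro n
  induction n using Nat.strong_induction_on with
  | _ n ih =>
    intro a b hn hb hba c hc
    -- a symmetric form of the induction hypothesis
    have ih' : ∀ a' b', a' + b' < n → 1 ≤ a' → 1 ≤ b' → ∀ c',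
        IsB c' (G a' * G b' + G a' + G b') → Nn (c' - G (a' + b')) := by
      intro a' b' hlt ha' hb' c' hc'
      rcases le_total b' a' with h | h
      · exact ih _ hlt a' b' rfl hb' h c' hc'
      · rw [add_comm a' b']
        apply ih (b' + a') (by omega) b' a' rfl ha' h c'
        have : G b' * G a' + G b' + G a' = G a' * G b' + G a' + G b' := by ring
        rw [this]; exact hc'
    have nc : Nn c := hc.nn ((((nn_G a).mul (nn_G b)).add (nn_G a)).add (nn_G b))
    have hG := G_isB (k := a + b) (by omega)
    rcases Nat.lt_or_ge (b + 1) a with h | h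
    · rcases Nat.lt_or_ge b 2 with hb2 | hb2
      · -- `b = 1`
        have hb1 : b = 1 := by omega
        subst hb1
        have hL : IsB (H (.node (bt ((a + 1) / 2)) (.node (bt (a / 2)) (bt 1))))
            (G ((a + 1) / 2) * H (.node (bt (a / 2)) (bt 1)) + G ((a + 1) / 2) +
              H (.node (bt (a / 2)) (bt 1))) := H_node _ _
        have h2 : IsB (H (.node (bt (a / 2)) (bt 1))) (G (a / 2) * G 1 + G (a / 2) + G 1) :=
          H_node _ _
        have r := rotation (nn_G ((a + 1) / 2)) (nn_G 1) (nn_G (a / 2))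
          (G_mono _ 1 le_rfl (by omega)) (G_isB (k := a) (by omega)) h2 hL hc
        have i1 := ih' (a / 2) 1 (by omega) (by omega) le_rfl _ h2
        have e1 : (a + 1 + 1) / 2 = a / 2 + 1 := by omega
        rw [e1] at hG
        refine Nn.trans (hG.mono hL (nn_G _) (nn_H _) ?_) r
        have e2 : G (a / 2 + 1) * G ((a + 1) / 2) + G (a / 2 + 1) + G ((a + 1) / 2) =
            G ((a + 1) / 2) * G (a / 2 + 1) + G ((a + 1) / 2) + G (a / 2 + 1) := by ring
        rw [e2]
        apply arg_mono (nn_G _) (nn_H _) _ i1
        rw [sub_self]; exact nn_zero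
      · -- `b ≥ 2`
        have h1 : IsB (H (.node (bt ((a + 1) / 2)) (bt (b / 2))))
            (G ((a + 1) / 2) * G (b / 2) + G ((a + 1) / 2) + G (b / 2)) := H_node _ _
        have h2 : IsB (H (.node (bt ((b + 1) / 2)) (bt (a / 2))))
            (G ((b + 1) / 2) * G (a / 2) + G ((b + 1) / 2) + G (a / 2)) := H_node _ _
        have ex := exchange (nn_G ((b + 1) / 2)) (nn_G (b / 2))
          (G_mono ((a + 1) / 2) ((b + 1) / 2) (by omega) (by omega))
          (G_mono (a / 2) (b / 2) (by omega) (by omega))
          (G_isB (k := a) (by omega)) (G_isB (k := b) hb2) h1 h2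
        have i1 := ih' ((a + 1) / 2) (b / 2) (by omega) (by omega) (by omega) _ h1
        have i2 := ih' ((b + 1) / 2) (a / 2) (by omega) (by omega) (by omega) _ h2
        apply hG.mono hc (nn_G _) nc
        refine Nn.trans ?_ ex
        have hcase : ((a + b + 1) / 2 = (a + 1) / 2 + b / 2 ∧
            (a + b) / 2 = (b + 1) / 2 + a / 2) ∨ ((a + b + 1) / 2 = (b + 1) / 2 + a / 2 ∧
            (a + b) / 2 = (a + 1) / 2 + b / 2) := by omega
        rcases hcase with ⟨e1, e2⟩ | ⟨e1, e2⟩
        · rw [e1, e2]
          exact arg_mono (nn_G _) (nn_H _) i1 i2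
        · rw [e1, e2]
          have e3 : H (.node (bt ((a + 1) / 2)) (bt (b / 2))) *
              H (.node (bt ((b + 1) / 2)) (bt (a / 2))) +
              H (.node (bt ((a + 1) / 2)) (bt (b / 2))) +
              H (.node (bt ((b + 1) / 2)) (bt (a / 2))) =
              H (.node (bt ((b + 1) / 2)) (bt (a / 2))) *
              H (.node (bt ((a + 1) / 2)) (bt (b / 2))) +
              H (.node (bt ((b + 1) / 2)) (bt (a / 2))) +
              H (.node (bt ((a + 1) / 2)) (bt (b / 2))) := by ring
          rw [e3]
          exact arg_mono (nn_G _) (nn_H _) i2 i1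
    · -- balanced split
      have e1 : (a + b + 1) / 2 = a := by omega
      have e2 : (a + b) / 2 = b := by omega
      rw [e1, e2] at hG
      exact same_arg hc hG nc (nn_G _) rfl

lemma merge' {a b : ℕ} (ha : 1 ≤ a) (hb : 1 ≤ b) {c : PowerSeries ℝ}
    (hc : IsB c (G a * G b + G a + G b)) : Nn (c - G (a + b)) := by
  rcases le_total b a with h | h
  · exact merge _ a b rfl hb h c hc
  · rw [add_comm a b]
    apply merge _ b a rfl ha h c
    have : G b * G a + G b + G a = G a * G b + G a + G b := by ring
    rw [this]; exact hc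

lemma size_pos (S : SpeciesTree) : 1 ≤ S.size := by
  induction S with
  | leaf => exact le_rfl
  | node l r ihl _ => exact le_trans ihl (Nat.le_add_right _ _)

/-- the balanced tree has the smallest series -/
lemma lower (S : SpeciesTree) : Nn (H S - G S.size) := by
  induction S with
  | leaf =>
    show Nn (H .leaf - G 1)
    rw [G_one, sub_self]; exact nn_zero
  | node l r ihl ihr =>
    have hc : IsB (H (.node (bt l.size) (bt r.size)))
        (G l.size * G r.size + G l.size + G r.size) := H_node _ _
    have h1 := merge' (size_pos l) (size_pos r) hc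
    refine Nn.trans h1 ?_
    apply hc.mono (H_node l r) (nn_H _) (nn_H _)
    exact arg_mono (nn_G _) (nn_H _) ihl ihr

lemma balanced_eq (T : SpeciesTree) (hT : T.Balanced) : H T = G T.size := by
  induction T with
  | leaf => exact G_one.symm
  | node l r ihl ihr =>
    obtain ⟨hl, hr, h1, h2⟩ := hT
    have hc := H_node l r
    rw [ihl hl, ihr hr] at hc
    have hG := G_isB (k := l.size + r.size) (by have := size_pos l; have := size_pos r; omega)
    show H (.node l r) = G (l.size + r.size)
    rcases Nat.lt_or_ge l.size r.size with h | h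
    · have e1 : (l.size + r.size + 1) / 2 = r.size := by omega
      have e2 : (l.size + r.size) / 2 = l.size := by omega
      rw [e1, e2] at hG
      have e3 : G r.size * G l.size + G r.size + G l.size =
          G l.size * G r.size + G l.size + G r.size := by ring
      rw [e3] at hG
      exact nn_eq (same_arg hc hG (nn_H _) (nn_G _) rfl) (same_arg hG hc (nn_G _) (nn_H _) rfl)
    · have e1 : (l.size + r.size + 1) / 2 = l.size := by omega
      have e2 : (l.size + r.size) / 2 = r.size := by omega
      rw [e1, e2] at hG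
      exact nn_eq (same_arg hc hG (nn_H _) (nn_G _) rfl) (same_arg hG hc (nn_G _) (nn_H _) rfl)

/-! ### Caterpillars -/

lemma cat_succ {a : ℕ} (ha : 1 ≤ a) : caterpillar (a + 1) = .node (caterpillar a) .leaf := by
  obtain ⟨k, rfl⟩ : ∃ k, a = k + 1 := ⟨a - 1, by omega⟩
  rfl

lemma cat_merge : ∀ b, 1 ≤ b → ∀ a, 1 ≤ a → ∀ c,
    IsB c (H (caterpillar a) * H (caterpillar b) + H (caterpillar a) + H (caterpillar b)) →
    Nn (H (caterpillar (a + b)) - c) := by
  intro b hb
  induction b, hb using Nat.le_induction with
  | base =>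
    intro a ha c hc
    rw [cat_succ ha]
    have nc : Nn c := hc.nn ((((nn_H _).mul (nn_H _)).add (nn_H _)).add (nn_H _))
    exact same_arg (H_node _ _) hc (nn_H _) nc rfl
  | succ b hb ih =>
    intro a ha c hc
    have h2 : IsB (H (caterpillar (b + 1)))
        (H (caterpillar b) * H .leaf + H (caterpillar b) + H .leaf) := by
      rw [cat_succ hb]; exact H_node _ _
    have h1 : IsB (H (.node (caterpillar a) (caterpillar b)))
        (H (caterpillar a) * H (caterpillar b) + H (caterpillar a) + H (caterpillar b)) :=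
      H_node _ _
    have hR : IsB (H (.node (.node (caterpillar a) (caterpillar b)) .leaf))
        (H (.node (caterpillar a) (caterpillar b)) * H .leaf +
          H (.node (caterpillar a) (caterpillar b)) + H .leaf) := H_node _ _
    have r := rotation (nn_H (caterpillar a)) (nn_H .leaf) (nn_H (caterpillar b))
      (leaf_le _) h1 h2 hc hR
    have i := ih a ha _ h1
    refine Nn.trans r ?_
    rw [← add_assoc, cat_succ (by omega : 1 ≤ a + b)]
    apply hR.mono (H_node _ _) (nn_H _) (nn_H _)
    apply arg_mono (nn_H _) (nn_H _) i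
    rw [sub_self]; exact nn_zero

/-- the caterpillar has the largest series -/
lemma upper (S : SpeciesTree) : Nn (H (caterpillar S.size) - H S) := by
  induction S with
  | leaf =>
    show Nn (H .leaf - H .leaf)
    rw [sub_self]; exact nn_zero
  | node l r ihl ihr =>
    have hc : IsB (H (.node (caterpillar l.size) (caterpillar r.size)))
        (H (caterpillar l.size) * H (caterpillar r.size) + H (caterpillar l.size) +
          H (caterpillar r.size)) := H_node _ _
    have h1 := cat_merge _ (size_pos r) _ (size_pos l) _ hc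
    refine Nn.trans ?_ h1
    apply (H_node l r).mono hc (nn_H _) (nn_H _)
    exact arg_mono (nn_H _) (nn_H _) ihl ihr

/-- For every size `k ≥ 1` there is a balanced species tree of size `k`, and for every balanced
species tree `T` of size `k`, every species tree `S` of size `k` and every `n`,
`h_T(n) ≤ h_S(n) ≤ h_{CT_k}(n)`. -/
theorem result (k : ℕ) (hk : 1 ≤ k) :
    (∃ T : SpeciesTree, T.Balanced ∧ T.size = k) ∧
    ∀ T : SpeciesTree, T.Balanced → T.size = k → ∀ S : SpeciesTree, S.size = k → ∀ n : ℕ,
      h T n ≤ h S n ∧ h S n ≤ h (caterpillar k) n := by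
  refine ⟨⟨bt k, bt_balanced hk, bt_size hk⟩, ?_⟩
  rintro T hT hTk S rfl n
  have h1 := lower S n
  have h2 := upper S n
  rw [map_sub] at h1 h2
  unfold h
  rw [balanced_eq T hT, hTk]
  constructor <;> linarith

end Pool.Agent.Results.MP_f5c34b_co.ExtremalTrees
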