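import Mathlib
import Pool.Agent.V11172.DLHist

namespace Pool.Agent.Results.MP_f5c34b_co.GrowthFactors

open PowerSeries Pool.Agent.V11172.DLHist Filter
open scoped ENNReal

/-- The radius of convergence `ρ_S` of the generating function at the root (its coefficients are
nonnegative). -/
noncomputable def rho (S : SpeciesTree) : ℝ :=
  sSup {r : ℝ | 0 ≤ r ∧ Summable fun n => h S n * r ^ n}

/-- The exponential growth factor `α_S = 1 / ρ_S`. -/
noncomputable def alpha (S : SpeciesTree) : ℝ := (rho S)⁻¹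

/-! ### Evaluation of series with nonnegative coefficients -/

/-- evaluation at `r` -/
noncomputable def ev (F : PowerSeries ℝ) (r : ℝ) : ℝ≥0∞ :=
  ∑' n, ENNReal.ofReal (coeff n F * r ^ n)

lemma cauchy (f g : ℕ → ℝ≥0∞) : (∑' n, f n) * (∑' n, g n) =
    ∑' n, ∑ p ∈ Finset.HasAntidiagonal.antidiagonal n, f p.1 * g p.2 := by
  conv_rhs => congr; ext; rw [← Finset.sum_finset_coe, ← tsum_fintype (L := .unconditional _)]
  have h1 : (∑' n, f n) * (∑' n, g n) = ∑' p : ℕ × ℕ, f p.1 * g p.2 := by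
    rw [ENNReal.tsum_prod', ← ENNReal.tsum_mul_right]
    congr 1
    ext n
    rw [← ENNReal.tsum_mul_left]
  rw [h1, ← Finset.HasAntidiagonal.sigmaAntidiagonalEquivProd.tsum_eq (_ : ℕ × ℕ → ℝ≥0∞)]
  rw [ENNReal.tsum_sigma']
  rfl

lemma ev_add {F G : PowerSeries ℝ} (hF : Nn F) (hG : Nn G) {r : ℝ} (hr : 0 ≤ r) :
    ev (F + G) r = ev F r + ev G r := by
  unfold ev
  rw [← ENNReal.tsum_add]
  congr 1
  ext n
  rw [map_add, add_mul, ENNReal.ofReal_add (mul_nonneg (hF n) (pow_nonneg hr n))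
    (mul_nonneg (hG n) (pow_nonneg hr n))]

lemma term_mul {F G : PowerSeries ℝ} (hF : Nn F) (hG : Nn G) {r : ℝ} (hr : 0 ≤ r) (n : ℕ) :
    ENNReal.ofReal (coeff n (F * G) * r ^ n) =
      ∑ p ∈ Finset.HasAntidiagonal.antidiagonal n,
        ENNReal.ofReal (coeff p.1 F * r ^ p.1) * ENNReal.ofReal (coeff p.2 G * r ^ p.2) := by
  rw [coeff_mul, Finset.sum_mul, ENNReal.ofReal_sum_of_nonneg]
  · apply Finset.sum_congr rfl
    rintro ⟨i, j⟩ hp
    rw [Finset.HasAntidiagonal.mem_antidiagonal] at hp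
    simp only at hp ⊢
    rw [← ENNReal.ofReal_mul (mul_nonneg (hF i) (pow_nonneg hr i)), ← hp, pow_add]
    congr 1
    ring
  · rintro ⟨i, j⟩ _
    exact mul_nonneg (mul_nonneg (hF i) (hG j)) (pow_nonneg hr n)

lemma ev_mul {F G : PowerSeries ℝ} (hF : Nn F) (hG : Nn G) {r : ℝ} (hr : 0 ≤ r) :
    ev (F * G) r = ev F r * ev G r := by
  unfold ev
  rw [cauchy]
  congr 1
  ext n
  exact term_mul hF hG hr n

lemma ev_X {r : ℝ} : ev X r = ENNReal.ofReal r := by
  unfold ev
  rw [tsum_eq_single 1]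
  · simp
  · intro n hn
    rw [coeff_X, if_neg hn]; simp

lemma ev_mono {F G : PowerSeries ℝ} (h : Nn (G - F)) {r : ℝ} (hr : 0 ≤ r) : ev F r ≤ ev G r := by
  apply ENNReal.tsum_le_tsum
  intro n
  apply ENNReal.ofReal_le_ofReal
  have := h n
  rw [map_sub] at this
  exact mul_le_mul_of_nonneg_right (by linarith) (pow_nonneg hr n)

lemma ev_isB {b y : PowerSeries ℝ} (hb : IsB b y) (hy : Nn y) {r : ℝ} (hr : 0 ≤ r) :
    ev b r = ev y r + ev b r * ev b r := by
  have nb := hb.nn hy
  conv_lhs => rw [hb.2]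
  rw [ev_add hy nb.sq hr, pow_two, ev_mul nb nb hr]

/-- if the argument is at most `1/4`, the series `B` converges -/
lemma ev_B_le {b y : PowerSeries ℝ} (hb : IsB b y) (hy : Nn y) {r : ℝ} (hr : 0 ≤ r) {x : ℝ}
    (hx0 : 0 ≤ x) (hx : x ≤ 1 / 4) (h : ev y r ≤ ENNReal.ofReal x) :
    ev b r ≤ ENNReal.ofReal (x + 4 * x ^ 2) := by
  have nb := hb.nn hy
  set f : ℕ → ℝ≥0∞ := fun n => ENNReal.ofReal (coeff n b * r ^ n) with hf
  have hf0 : f 0 = 0 := by
    simp only [hf]
    rw [coeff_zero_eq_constantCoeff_apply, hb.1]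
    simp
  have hstep : ∀ N, ∑ n ∈ Finset.range (N + 1), f n ≤
      ev y r + (∑ n ∈ Finset.range N, f n) * (∑ n ∈ Finset.range N, f n) := by
    intro N
    have h1 : ∀ n, f n = ENNReal.ofReal (coeff n y * r ^ n) +
        ∑ p ∈ Finset.HasAntidiagonal.antidiagonal n, f p.1 * f p.2 := by
      intro n
      rw [← term_mul nb nb hr, ← pow_two, ← ENNReal.ofReal_add (mul_nonneg (hy n)
        (pow_nonneg hr n)) (mul_nonneg (nb.sq n) (pow_nonneg hr n)), ← add_mul, ← map_add, ← hb.2]
    rw [Finset.sum_congr rfl (fun n _ => h1 n), Finset.sum_add_distrib]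
    apply add_le_add
    · exact ENNReal.sum_le_tsum _
    · set g : ℕ → ℝ≥0∞ := fun n => if n < N then f n else 0 with hg
      have h2 : ∑' n, g n = ∑ n ∈ Finset.range N, f n := by
        rw [tsum_eq_sum (s := Finset.range N)]
        · apply Finset.sum_congr rfl
          intro n hn
          rw [Finset.mem_range] at hn
          simp [hg, hn]
        · intro n hn
          rw [Finset.mem_range] at hn
          simp [hg, hn]
      rw [← h2, cauchy]
      refine le_trans ?_ (ENNReal.sum_le_tsum (Finset.range (N + 1)))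
      apply Finset.sum_le_sum
      intro n hn
      rw [Finset.mem_range] at hn
      apply Finset.sum_le_sum
      rintro ⟨i, j⟩ hp
      rw [Finset.HasAntidiagonal.mem_antidiagonal] at hp
      simp only at hp ⊢
      rcases Nat.eq_zero_or_pos i with rfl | hi
      · rw [hf0, zero_mul]; exact zero_le
      · rcases Nat.eq_zero_or_pos j with rfl | hj
        · rw [hf0, mul_zero]; exact zero_le
        · have hi' : i < N := by omega
          have hj' : j < N := by omega
          simp [hg, hi', hj']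
  have hall : ∀ N, ∑ n ∈ Finset.range N, f n ≤ ENNReal.ofReal (x + 4 * x ^ 2) := by
    intro N
    induction N with
    | zero => simp
    | succ N ih =>
      refine (hstep N).trans ?_
      have h3 : (∑ n ∈ Finset.range N, f n) * (∑ n ∈ Finset.range N, f n) ≤
          ENNReal.ofReal (x + 4 * x ^ 2) * ENNReal.ofReal (x + 4 * x ^ 2) := mul_le_mul' ih ih
      refine (add_le_add h h3).trans ?_
      rw [← ENNReal.ofReal_mul (by positivity), ← ENNReal.ofReal_add hx0 (by positivity)]
      apply ENNReal.ofReal_le_ofReal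
      have h4 : x + 4 * x ^ 2 ≤ 2 * x := by nlinarith
      have h5 : 0 ≤ x + 4 * x ^ 2 := by positivity
      nlinarith [mul_le_mul h4 h4 h5 (by linarith : (0:ℝ) ≤ 2 * x)]
  unfold ev
  rw [ENNReal.tsum_eq_iSup_nat]
  exact iSup_le hall

lemma ev_node_arg (l r : SpeciesTree) {t : ℝ} (ht : 0 ≤ t) :
    ev (H l * H r + H l + H r) t = ev (H l) t * ev (H r) t + ev (H l) t + ev (H r) t := by
  rw [ev_add (((nn_H l).mul (nn_H r)).add (nn_H l)) (nn_H r) ht,
    ev_add ((nn_H l).mul (nn_H r)) (nn_H l) ht, ev_mul (nn_H l) (nn_H r) ht]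

lemma nn_arg (l r : SpeciesTree) : Nn (H l * H r + H l + H r) :=
  ((((nn_H l).mul (nn_H r)).add (nn_H l)).add (nn_H r))

/-- a bound at a node -/
lemma node_bound (l r : SpeciesTree) {t a b : ℝ} (ht : 0 ≤ t) (ha : 0 ≤ a) (hb : 0 ≤ b)
    (hl : ev (H l) t ≤ ENNReal.ofReal a) (hr : ev (H r) t ≤ ENNReal.ofReal b)
    (hab : a * b + a + b ≤ 1 / 4) :
    ev (H (.node l r)) t ≤
      ENNReal.ofReal ((a * b + a + b) + 4 * (a * b + a + b) ^ 2) := by
  apply ev_B_le (H_node l r) (nn_arg l r) ht (by positivity) hab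
  rw [ev_node_arg l r ht, ENNReal.ofReal_add (by positivity) hb, ENNReal.ofReal_add (by positivity)
    ha, ENNReal.ofReal_mul ha]
  exact add_le_add (add_le_add (mul_le_mul' hl hr) hl) hr

lemma leaf_bound {t : ℝ} (ht : 0 ≤ t) (h4 : t ≤ 1 / 4) :
    ev (H .leaf) t ≤ ENNReal.ofReal (t + 4 * t ^ 2) := by
  apply ev_B_le H_leaf nn_X ht ht h4
  rw [ev_X]

lemma summable_of_ev {F : PowerSeries ℝ} (hF : Nn F) {t : ℝ} (ht : 0 ≤ t) (h : ev F t ≠ ⊤) :
    Summable fun n => coeff n F * t ^ n := by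
  have := ENNReal.summable_toReal h
  refine this.congr (fun n => ?_)
  rw [ENNReal.toReal_ofReal (mul_nonneg (hF n) (pow_nonneg ht n))]

lemma size_pos (S : SpeciesTree) : 1 ≤ S.size := by
  induction S with
  | leaf => exact le_rfl
  | node l r ihl _ => exact le_trans ihl (Nat.le_add_right _ _)

/-- every tree has a positive radius of convergence -/
lemma general_bound (S : SpeciesTree) {t : ℝ} (ht : 0 ≤ t) (h : 8 ^ S.size * t ≤ 1 / 4) :
    ev (H S) t ≤ ENNReal.ofReal (8 ^ S.size * t) := by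
  induction S with
  | leaf =>
    simp only [SpeciesTree.size, pow_one] at h ⊢
    refine (leaf_bound ht (by linarith)).trans (ENNReal.ofReal_le_ofReal ?_)
    nlinarith
  | node l r ihl ihr =>
    simp only [SpeciesTree.size] at h ⊢
    have hl : (8:ℝ) ≤ 8 ^ l.size := by
      calc (8:ℝ) = 8 ^ 1 := by norm_num
        _ ≤ 8 ^ l.size := pow_le_pow_right₀ (by norm_num) (size_pos l)
    have hr : (8:ℝ) ≤ 8 ^ r.size := by
      calc (8:ℝ) = 8 ^ 1 := by norm_num
        _ ≤ 8 ^ r.size := pow_le_pow_right₀ (by norm_num) (size_pos r)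
    rw [pow_add] at h ⊢
    set A : ℝ := 8 ^ l.size with hA
    set B : ℝ := 8 ^ r.size with hB
    have h1 : 8 * A ≤ A * B := by nlinarith
    have h2 : 8 * B ≤ A * B := by nlinarith
    have hAt : 8 * (A * t) ≤ A * B * t := by nlinarith [mul_le_mul_of_nonneg_right h1 ht]
    have hBt : 8 * (B * t) ≤ A * B * t := by nlinarith [mul_le_mul_of_nonneg_right h2 ht]
    have hA0 : 0 ≤ A * t := by positivity
    have hB0 : 0 ≤ B * t := by positivity
    have hy : A * t * (B * t) + A * t + B * t ≤ A * B * t / 2 := by nlinarith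
    have nb := node_bound l r ht hA0 hB0 (ihl (by linarith)) (ihr (by linarith)) (by linarith)
    refine nb.trans (ENNReal.ofReal_le_ofReal ?_)
    have h0 : 0 ≤ A * t * (B * t) + A * t + B * t := by positivity
    nlinarith

/-- balanced trees -/
lemma balanced_bound (S : SpeciesTree) (hS : S.Balanced) {t : ℝ} (ht : 0 ≤ t)
    (h : 100 * S.size * t ≤ 1) :
    ev (H S) t ≤ ENNReal.ofReal (S.size * t + 100 * (S.size * t) ^ 2) := by
  induction S with
  | leaf =>
    simp only [SpeciesTree.size, Nat.cast_one, mul_one, one_mul] at h ⊢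
    refine (leaf_bound ht (by linarith)).trans (ENNReal.ofReal_le_ofReal ?_)
    nlinarith
  | node l r ihl ihr =>
    obtain ⟨bl, br, h1, h2⟩ := hS
    have pl : (1:ℝ) ≤ l.size := by exact_mod_cast size_pos l
    have pr : (1:ℝ) ≤ r.size := by exact_mod_cast size_pos r
    have h1' : (l.size : ℝ) ≤ r.size + 1 := by exact_mod_cast h1
    have h2' : (r.size : ℝ) ≤ l.size + 1 := by exact_mod_cast h2
    simp only [SpeciesTree.size, Nat.cast_add] at h ⊢
    set a : ℝ := (l.size : ℝ) with ha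
    set b : ℝ := (r.size : ℝ) with hb
    have ht1 : a * t ≤ 1 / 100 := by nlinarith
    have ht2 : b * t ≤ 1 / 100 := by nlinarith
    have ha0 : 0 ≤ a * t := by positivity
    have hb0 : 0 ≤ b * t := by positivity
    have hq : (a + b) ^ 2 ≤ 9 / 2 * (a * b) := by
      nlinarith [mul_nonneg (by linarith : (0:ℝ) ≤ a - 1) (by linarith : (0:ℝ) ≤ b - 1),
        mul_nonneg (by linarith : (0:ℝ) ≤ b + 1 - a) (by linarith : (0:ℝ) ≤ a + 1 - b)]
    set u : ℝ := a * t with hu
    set v : ℝ := b * t with hv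
    have hq' : (u + v) ^ 2 ≤ 9 / 2 * (u * v) := by
      have : (u + v) ^ 2 = (a + b) ^ 2 * t ^ 2 := by rw [hu, hv]; ring
      have e2 : 9 / 2 * (u * v) = 9 / 2 * (a * b) * t ^ 2 := by rw [hu, hv]; ring
      rw [this, e2]
      exact mul_le_mul_of_nonneg_right hq (sq_nonneg t)
    have hsum : (a + b) * t = u + v := by rw [hu, hv]; ring
    have huv : u + v ≤ 1 / 100 := by nlinarith
    have fa : 0 ≤ u + 100 * u ^ 2 := by positivity
    have fb : 0 ≤ v + 100 * v ^ 2 := by positivity
    have fa2 : u + 100 * u ^ 2 ≤ 2 * u := by nlinarith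
    have fb2 : v + 100 * v ^ 2 ≤ 2 * v := by nlinarith
    have hprod : (u + 100 * u ^ 2) * (v + 100 * v ^ 2) ≤ 4 * (u * v) := by
      calc (u + 100 * u ^ 2) * (v + 100 * v ^ 2) ≤ (2 * u) * (2 * v) :=
            mul_le_mul fa2 fb2 fb (by linarith)
        _ = 4 * (u * v) := by ring
    set y : ℝ := (u + 100 * u ^ 2) * (v + 100 * v ^ 2) + (u + 100 * u ^ 2) + (v + 100 * v ^ 2)
      with hy
    have hy0 : 0 ≤ y := by positivity
    have huv0 : 0 ≤ u * v := by positivity
    have hy3 : y ≤ 3 * (u + v) := by nlinarith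
    have hy4 : y ≤ 1 / 4 := by linarith
    have hy5 : 4 * y ^ 2 ≤ 36 * (u + v) ^ 2 := by
      have : y ^ 2 ≤ (3 * (u + v)) ^ 2 := by
        apply pow_le_pow_left₀ hy0 hy3
      nlinarith
    have nb := node_bound l r ht fa fb
      (ihl bl (by have e : 100 * a * t = 100 * u := (by rw [hu]; ring)
                  rw [e]; linarith))
      (ihr br (by have e : 100 * b * t = 100 * v := (by rw [hv]; ring)
                  rw [e]; linarith)) hy4
    refine nb.trans (ENNReal.ofReal_le_ofReal ?_)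
    rw [hsum]
    nlinarith

/-! ### Lower bounds for the series -/

lemma size_le_ev (S : SpeciesTree) {t : ℝ} (ht : 0 ≤ t) :
    ENNReal.ofReal (S.size * t) ≤ ev (H S) t := by
  induction S with
  | leaf =>
    rw [ev_isB H_leaf nn_X ht, ev_X]
    simp only [SpeciesTree.size, Nat.cast_one, one_mul]
    exact le_self_add
  | node l r ihl ihr =>
    rw [ev_isB (H_node l r) (nn_arg l r) ht, ev_node_arg l r ht]
    simp only [SpeciesTree.size, Nat.cast_add, add_mul]
    rw [ENNReal.ofReal_add (by positivity) (by positivity)]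
    refine le_trans (add_le_add ihl ihr) ?_
    refine le_trans ?_ le_self_add
    rw [add_assoc]
    exact le_add_self

lemma ev_le_one (S : SpeciesTree) {t : ℝ} (ht : 0 ≤ t) (h : ev (H S) t ≠ ⊤) :
    ev (H S) t ≤ 1 := by
  have h1 : ev (H S) t * ev (H S) t ≤ ev (H S) t := by
    cases S with
    | leaf =>
      conv_rhs => rw [ev_isB H_leaf nn_X ht]
      exact le_add_self
    | node l r =>
      conv_rhs => rw [ev_isB (H_node l r) (nn_arg l r) ht]
      exact le_add_self
  by_contra hc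
  push Not at hc
  have h0 : ev (H S) t ≠ 0 := by
    intro h0; rw [h0] at hc; exact absurd hc (by simp)
  have h2 := (ENNReal.mul_lt_mul_iff_right h0 h).2 hc
  rw [mul_one] at h2
  exact absurd h1 (not_le.2 h2)

lemma mem_ev {S : SpeciesTree} {t : ℝ} (h : Summable fun n => h S n * t ^ n) :
    ev (H S) t ≠ ⊤ := h.tsum_ofReal_ne_top

lemma size_mul_le {S : SpeciesTree} {t : ℝ} (ht : 0 ≤ t)
    (h : Summable fun n => h S n * t ^ n) : S.size * t ≤ 1 := by
  have h1 := (size_le_ev S ht).trans (ev_le_one S ht (mem_ev h))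
  rwa [ENNReal.ofReal_le_one] at h1

lemma bdd (S : SpeciesTree) : BddAbove {r : ℝ | 0 ≤ r ∧ Summable fun n => h S n * r ^ n} := by
  refine ⟨1, ?_⟩
  rintro r ⟨hr, hs⟩
  have h1 := size_mul_le hr hs
  have h2 : (1:ℝ) ≤ S.size := by exact_mod_cast size_pos S
  nlinarith

lemma rho_pos (S : SpeciesTree) : 0 < rho S := by
  have h8 : (0:ℝ) < 8 ^ S.size := by positivity
  have hmem : 1 / (4 * 8 ^ S.size) ∈ {r : ℝ | 0 ≤ r ∧ Summable fun n => h S n * r ^ n} := by
    have ht : (0:ℝ) ≤ 1 / (4 * 8 ^ S.size) := by positivity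
    refine ⟨ht, ?_⟩
    apply summable_of_ev (nn_H S) ht
    have hb : (8:ℝ) ^ S.size * (1 / (4 * 8 ^ S.size)) ≤ 1 / 4 := by
      apply le_of_eq; field_simp
    exact ne_top_of_le_ne_top ENNReal.ofReal_ne_top (general_bound S ht hb)
  have h1 : 1 / (4 * 8 ^ S.size) ≤ rho S := le_csSup (bdd S) hmem
  have h2 : (0:ℝ) < 1 / (4 * 8 ^ S.size) := by positivity
  linarith

lemma rho_le {S : SpeciesTree} {c : ℝ}
    (hc : ∀ t : ℝ, 0 ≤ t → ev (H S) t ≠ ⊤ → t ≤ c) : rho S ≤ c := by
  apply csSup_le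
  · exact ⟨0, le_rfl, by
      apply summable_of_ev (nn_H S) le_rfl
      exact ne_top_of_le_ne_top ENNReal.ofReal_ne_top (general_bound S le_rfl (by norm_num))⟩
  · rintro r ⟨hr, hs⟩
    exact hc r hr (mem_ev hs)

/-! ### Caterpillars -/

lemma cat_succ {a : ℕ} (ha : 1 ≤ a) : caterpillar (a + 1) = .node (caterpillar a) .leaf := by
  obtain ⟨k, rfl⟩ : ∃ k, a = k + 1 := ⟨a - 1, by omega⟩
  rfl

lemma cat_mono {t : ℝ} (ht : 0 ≤ t) {a b : ℕ} (ha : 1 ≤ a) (hab : a ≤ b) :
    ev (H (caterpillar a)) t ≤ ev (H (caterpillar b)) t := by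
  induction b, hab using Nat.le_induction with
  | base => exact le_rfl
  | succ b hb ih =>
    refine ih.trans ?_
    rw [cat_succ (by omega : 1 ≤ b)]
    exact ev_mono (le_node_left _ _) ht

/-- the elementary growth argument -/
lemma growth {a : ℕ → ℝ} {t : ℝ} (ht : 0 < t) {m : ℕ} (hm : 1 ≤ m) (h1 : t ≤ a 1)
    (hle : ∀ k, 1 ≤ k → k ≤ 2 * m → a k ≤ 1)
    (hstep : ∀ k, 1 ≤ k → k < 2 * m → a k + t + a k ^ 2 ≤ a (k + 1)) : t * m ^ 2 ≤ 2 := by
  have hlin : ∀ k, 1 ≤ k → k ≤ 2 * m → k * t ≤ a k := by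
    intro k hk
    induction k, hk using Nat.le_induction with
    | base => intro _; simpa using h1
    | succ k hk ih =>
      intro hk2
      have i := ih (by omega)
      have s := hstep k hk (by omega)
      push_cast
      nlinarith [sq_nonneg (a k)]
  have hpos : ∀ k, 1 ≤ k → k ≤ 2 * m → 0 < a k := by
    intro k hk hk2
    have i := hlin k hk hk2
    have : (1:ℝ) ≤ k := by exact_mod_cast hk
    nlinarith
  have hinv : ∀ j, m + j ≤ 2 * m → (a (m + j))⁻¹ ≤ (a m)⁻¹ - j / 2 := by
    intro j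
    induction j with
    | zero => intro _; simp
    | succ j ih =>
      intro hj
      have i := ih (by omega)
      have s := hstep (m + j) (by omega) (by omega)
      have p := hpos (m + j) (by omega) (by omega)
      have p1 := hpos (m + (j + 1)) (by omega) (by omega)
      have l := hle (m + j) (by omega) (by omega)
      have e : m + (j + 1) = m + j + 1 := by omega
      rw [e] at p1 ⊢
      have q : a (m + j) * (1 + a (m + j)) ≤ a (m + j + 1) := by nlinarith
      have q1 : (a (m + j + 1))⁻¹ ≤ (a (m + j) * (1 + a (m + j)))⁻¹ :=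
        inv_anti₀ (by positivity) q
      have q2 : (a (m + j) * (1 + a (m + j)))⁻¹ = (a (m + j))⁻¹ - (1 + a (m + j))⁻¹ := by
        field_simp
        ring
      have q3 : (1:ℝ) / 2 ≤ (1 + a (m + j))⁻¹ := by
        rw [one_div]
        exact inv_anti₀ (by linarith) (by linarith)
      push_cast
      linarith
  have h3 := hinv m (by omega)
  have h4 : 1 ≤ (a (m + m))⁻¹ := by
    rw [one_le_inv₀ (hpos _ (by omega) (by omega))]
    exact hle _ (by omega) (by omega)
  have h5 : (m:ℝ) / 2 ≤ (a m)⁻¹ := by linarith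
  have hm' : (1:ℝ) ≤ m := by exact_mod_cast hm
  have pm := hpos m hm (by omega)
  have h6 : a m * (m / 2) ≤ 1 := by
    calc a m * (m / 2) ≤ a m * (a m)⁻¹ := mul_le_mul_of_nonneg_left h5 pm.le
      _ = 1 := mul_inv_cancel₀ pm.ne'
  have h7 := hlin m hm (by omega)
  nlinarith

lemma cat_rho {m k : ℕ} (hm : 1 ≤ m) (hk : 2 * m ≤ k) :
    rho (caterpillar k) ≤ 2 / (m:ℝ) ^ 2 := by
  apply rho_le
  intro t ht hfin
  rcases ht.eq_or_lt with rfl | ht0
  · positivity
  have hf : ∀ j, 1 ≤ j → j ≤ 2 * m → ev (H (caterpillar j)) t ≠ ⊤ := fun j hj1 hj2 =>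
    ne_top_of_le_ne_top hfin (cat_mono ht hj1 (by omega))
  have hm' : (0:ℝ) < m := by exact_mod_cast (by omega : 0 < m)
  have g := growth (a := fun j => (ev (H (caterpillar j)) t).toReal) ht0 hm ?_ ?_ ?_
  · rw [le_div_iff₀ (by positivity)]; exact g
  · have := size_le_ev (caterpillar 1) ht
    have h1 : (caterpillar 1).size = 1 := rfl
    rw [h1] at this
    have h2 := ENNReal.toReal_mono (hf 1 le_rfl (by omega)) this
    rw [ENNReal.toReal_ofReal (by positivity)] at h2
    simpa using h2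
  · intro j hj1 hj2
    have h2 := ENNReal.toReal_mono ENNReal.one_ne_top (ev_le_one _ ht (hf j hj1 hj2))
    simpa using h2
  · intro j hj1 hj2
    have hfj := hf j hj1 (by omega)
    have hfj1 := hf (j + 1) (by omega) (by omega)
    have hfl : ev (H .leaf) t ≠ ⊤ := hf 1 le_rfl (by omega)
    have e1 : ev (H (caterpillar (j + 1))) t =
        ev (H (caterpillar j)) t * ev (H .leaf) t + ev (H (caterpillar j)) t + ev (H .leaf) t +
          ev (H (caterpillar (j + 1))) t * ev (H (caterpillar (j + 1))) t := by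
      conv_lhs => rw [cat_succ hj1, ev_isB (H_node _ _) (nn_arg _ _) ht, ev_node_arg _ _ ht]
      rw [cat_succ hj1]
    have e2 := congrArg ENNReal.toReal e1
    rw [ENNReal.toReal_add (by finiteness) (by finiteness),
      ENNReal.toReal_add (by finiteness) (by finiteness),
      ENNReal.toReal_add (by finiteness) (by finiteness), ENNReal.toReal_mul,
      ENNReal.toReal_mul] at e2
    have hl : t ≤ (ev (H .leaf) t).toReal := by
      have := size_le_ev .leaf ht
      have h1 : SpeciesTree.leaf.size = 1 := rfl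
      rw [h1] at this
      have h2 := ENNReal.toReal_mono hfl this
      rw [ENNReal.toReal_ofReal (by positivity)] at h2
      simpa using h2
    have hmo : (ev (H (caterpillar j)) t).toReal ≤ (ev (H (caterpillar (j + 1))) t).toReal :=
      ENNReal.toReal_mono hfj1 (cat_mono ht hj1 (Nat.le_succ j))
    have p1 : 0 ≤ (ev (H (caterpillar j)) t).toReal := ENNReal.toReal_nonneg
    have p2 : 0 ≤ (ev (H .leaf) t).toReal := ENNReal.toReal_nonneg
    set A := (ev (H (caterpillar j)) t).toReal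
    set C := (ev (H (caterpillar (j + 1))) t).toReal
    set L := (ev (H .leaf) t).toReal
    have p3 : A ^ 2 ≤ C * C := by nlinarith
    have p4 : 0 ≤ A * L := mul_nonneg p1 p2
    linarith

/-- The growth factor of the caterpillars is superlinear, the growth factor of the balanced trees
is linear. -/
theorem result :
    Tendsto (fun k : ℕ => alpha (caterpillar k) / k) atTop atTop ∧
    ∃ c₁ c₂ : ℝ, 0 < c₁ ∧ c₁ ≤ c₂ ∧ ∀ T : SpeciesTree, T.Balanced →
      c₁ * T.size ≤ alpha T ∧ alpha T ≤ c₂ * T.size := by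
  constructor
  · rw [tendsto_atTop]
    intro C
    filter_upwards [eventually_ge_atTop (max 2 (18 * (Nat.ceil |C| + 1)))] with k hk
    have hk2 : 2 ≤ k := le_trans (le_max_left _ _) hk
    have hkC : 18 * (Nat.ceil |C| + 1) ≤ k := le_trans (le_max_right _ _) hk
    set m := k / 2 with hm
    have hm1 : 1 ≤ m := by omega
    have h1 := cat_rho (m := m) (k := k) hm1 (by omega)
    have h2 := rho_pos (caterpillar k)
    have hm' : (0:ℝ) < m := by exact_mod_cast hm1
    have hkpos : (0:ℝ) < k := by exact_mod_cast (by omega : 0 < k)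
    have h3 : (m:ℝ) ^ 2 / 2 ≤ alpha (caterpillar k) := by
      unfold alpha
      have : (2 / (m:ℝ) ^ 2)⁻¹ ≤ (rho (caterpillar k))⁻¹ := inv_anti₀ h2 h1
      rwa [inv_div] at this
    have h4 : (k:ℝ) ≤ 3 * m := by
      have : k ≤ 3 * m := by omega
      exact_mod_cast this
    have h5 : C ≤ (k:ℝ) / 18 := by
      have h6 : C ≤ Nat.ceil |C| := (le_abs_self C).trans (Nat.le_ceil _)
      have h7 : (18:ℝ) * (Nat.ceil |C| + 1) ≤ k := by exact_mod_cast hkC
      linarith
    rw [le_div_iff₀ hkpos]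
    have h8 : (k:ℝ) ^ 2 ≤ 9 * (m:ℝ) ^ 2 := by nlinarith
    nlinarith
  · refine ⟨1, 100, one_pos, by norm_num, ?_⟩
    intro T hT
    have hs : (1:ℝ) ≤ T.size := by exact_mod_cast size_pos T
    constructor
    · have h1 : rho T ≤ 1 / T.size := by
        apply rho_le
        intro t ht hfin
        have h1 := (size_le_ev T ht).trans (ev_le_one T ht hfin)
        rw [ENNReal.ofReal_le_one] at h1
        rw [le_div_iff₀ (by linarith)]
        linarith
      have h2 : (1 / (T.size : ℝ))⁻¹ ≤ (rho T)⁻¹ := inv_anti₀ (rho_pos T) h1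
      rw [one_div, inv_inv] at h2
      unfold alpha
      linarith
    · have ht : (0:ℝ) ≤ 1 / (100 * T.size) := by positivity
      have hb : 100 * (T.size : ℝ) * (1 / (100 * T.size)) ≤ 1 := by
        apply le_of_eq
        field_simp
      have hmem : 1 / (100 * (T.size : ℝ)) ∈
          {r : ℝ | 0 ≤ r ∧ Summable fun n => h T n * r ^ n} := by
        refine ⟨ht, ?_⟩
        apply summable_of_ev (nn_H T) ht
        exact ne_top_of_le_ne_top ENNReal.ofReal_ne_top (balanced_bound T hT ht hb)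
      have h1 : 1 / (100 * (T.size : ℝ)) ≤ rho T := le_csSup (bdd T) hmem
      have h2 : (rho T)⁻¹ ≤ (1 / (100 * (T.size : ℝ)))⁻¹ := inv_anti₀ (by positivity) h1
      rw [one_div, inv_inv] at h2
      exact h2

end Pool.Agent.Results.MP_f5c34b_co.GrowthFactors
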